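import Pool.Agent.Helper5.PE.Zero
import Pool.Agent.Helper5.NE.Aes
import Pool.Agent.Helper5.KM.Main

/-! Exponential sums along the points of processes of positive entropy, at the points where the
derivative is not a Liouville number. -/

open MeasureTheory Filter Topology

namespace Pool.Agent.Helper5.PE

open Pool.Agent.Helper5.KM Pool.Agent.Helper5.NE
open Pool.Agent.Helper6.NE (ps_Qf)
open Pool.Agent.Helper35.NE (freeze)
open Pool.Agent.Helper44.KM (int_abs_le_sqrt Qf_sq_int pyth)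

variable {b : ℕ}

theorem sq_tendsto_zero (hb : 2 ≤ b) {μ : Measure (Sq b)} [IsProbabilityMeasure μ]
    (h : EProc b μ) (X : ℝ) (hX : Dio X) (q : Sq b → ℂ) (hq : StronglyMeasurable[past b 0] q)
    (hq1 : ∀ y, ‖q y‖ ≤ 1) : Tendsto (fun l : ℕ => ∫ y, ‖Qf μ X q l y‖ ^ 2 ∂μ) atTop (𝓝 0) := by
  have hst : MeasurePreserving (sh 1) μ μ := h.erg.toMeasurePreserving
  have hanti : Antitone (fun l : ℕ => ∫ z, ‖Qf μ X q l z‖ ^ 2 ∂μ) := by
    refine antitone_nat_of_succ_le fun l => ?_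
    have h1 := pyth hst X q hq hq1 l 1
    have h2 : 0 ≤ ∫ y, ‖e ((b : ℝ) ^ l * X * Bk 1 y) * Qf μ X q l (sh (1 : ℕ) y) -
        Qf μ X q (l + 1) y‖ ^ 2 ∂μ := integral_nonneg fun y => by positivity
    linarith
  have h0 : ∀ l : ℕ, 0 ≤ ∫ z, ‖Qf μ X q l z‖ ^ 2 ∂μ := fun l =>
    integral_nonneg fun y => by positivity
  have hbdd : BddBelow (Set.range fun l : ℕ => ∫ z, ‖Qf μ X q l z‖ ^ 2 ∂μ) :=
    ⟨0, by rintro _ ⟨l, rfl⟩; exact h0 l⟩
  have hlim := tendsto_atTop_ciInf hanti hbdd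
  set a₀ := ⨅ l : ℕ, ∫ z, ‖Qf μ X q l z‖ ^ 2 ∂μ with ha₀
  have hle : ∀ l : ℕ, a₀ ≤ ∫ z, ‖Qf μ X q l z‖ ^ 2 ∂μ := fun l => ciInf_le hbdd l
  have h3 : 0 ≤ a₀ := le_ciInf h0
  rcases h3.eq_or_lt with h4 | h4
  · rw [← h4] at hlim
    exact hlim
  · exact (not_lower_bound hb h X hX q hq hq1 a₀ h4 hle).elim

theorem ps_zero (hb : 2 ≤ b) {μ : Measure (Sq b)} [IsProbabilityMeasure μ] (h : EProc b μ)
    (X : ℝ) (hX : Dio X) (r : ℕ) (G : (Fin r → Fin b) → ℂ) (hG : ∀ w, ‖G w‖ ≤ 1) :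
    Tendsto (fun L : ℕ => Ps μ X r G L) atTop (𝓝 0) := by
  obtain ⟨q, hq, hq1, hqP⟩ := ps_Qf hb h.erg.toMeasurePreserving X r G hG
  have h0 := sq_tendsto_zero hb h X hX q hq hq1
  have h1 : ∀ L : ℕ, Ps μ X r G L ≤ √(∫ z, ‖Qf μ X q L z‖ ^ 2 ∂μ) := by
    intro L
    rw [hqP]
    have h2 := int_abs_le_sqrt (μ := μ) (fun z => ‖Qf μ X q L z‖)
      (Qf_meas' μ _ _ L).norm.aestronglyMeasurable (Qf_sq_int _ _ hq1 L)
    simp only [abs_norm] at h2
    exact h2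
  refine squeeze_zero (fun L => integral_nonneg fun z => norm_nonneg _) h1 ?_
  rw [← Real.sqrt_zero]
  exact (Real.continuous_sqrt.tendsto 0).comp h0

/-- linear images: `f t = x t + c` -/
theorem ae_sums_lin (hb : 2 ≤ b) {μ : Measure (Sq b)} [IsProbabilityMeasure μ] (h : EProc b μ)
    (x c : ℝ) (H : ℤ) (hX : Dio (H * x)) (r : ℕ) (G : (Fin r → Fin b) → ℂ)
    (hG : ∀ w, ‖G w‖ ≤ 1) (a : ℕ → ℂ) (ha : ∀ n, ‖a n‖ ≤ 1) :
    ∀ᵐ y ∂μ, Tendsto (fun N : ℕ => (∑ n ∈ Finset.range N,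
      a n * (e (H * (b : ℝ) ^ n * (x * val y + c)) * G (blk n r y))) / N) atTop (𝓝 0) := by
  have hst : MeasurePreserving (sh 1) μ μ := h.erg.toMeasurePreserving
  have hn : ∀ᵐ y ∂μ, ∀ L : ℕ, ∀ δ : ℝ, 0 < δ → ∀ᶠ N : ℕ in atTop,
      ‖(∑ n ∈ Finset.range N, a n * (e (H * (b : ℝ) ^ n * (x * val y + c)) *
        G (blk n r y))) / N‖ ≤ Ps μ (H * x) r G L + δ := by
    rw [ae_all_iff]
    intro L
    exact nlb hb (fun f f' hf hf' C hC hT H r G hG L n hn X δ hδ =>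
        freeze hb hst f f' hf hf' C hC hT H r G hG L n hn X δ hδ) h.erg (fun t => x * t + c)
      (fun _ => x) (by fun_prop) (by fun_prop) |x| (abs_nonneg _)
      (fun s _ t _ => by
        have : x * t + c - (x * s + c) - x * (t - s) = 0 := by ring
        rw [this, abs_zero]
        positivity)
      (fun s _ t _ => by
        have : x * t + c - (x * s + c) = x * (t - s) := by ring
        rw [this, abs_mul])
      (fun s _ t _ => by
        rw [sub_self, abs_zero]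
        positivity)
      (H : ℝ) r G hG a ha L
  have hPs := ps_zero hb h (H * x) hX r G hG
  filter_upwards [hn] with y hy1
  rw [Metric.tendsto_atTop]
  intro δ hδ
  obtain ⟨L, hL⟩ := (hPs.eventually (gt_mem_nhds (show (0 : ℝ) < δ / 3 by positivity))).exists
  obtain ⟨N0, hN0⟩ := eventually_atTop.1 (hy1 L (δ / 3) (by positivity))
  refine ⟨N0, fun N hN => ?_⟩
  rw [dist_zero_right]
  have := hN0 N hN
  linarith

end Pool.Agent.Helper5.PE
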