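import Pool.Agent.Helper5.PE.Multi

/-! Several linear images of a process of positive entropy. -/

open MeasureTheory Filter Topology

namespace Pool.Agent.Helper5.PE

open Pool.Agent.Helper5.KM Pool.Agent.Helper5.NE

variable {b : ℕ}

theorem dio_one {X : ℝ} (hX : Irrational X) (hL : ¬ Liouville X) : Dio X := by
  have := dio_of_not_liouville hX hL 1 one_ne_zero
  simpa using this

open scoped Classical in
theorem sums_zero (hb : 2 ≤ b) {μ : Measure (Sq b)} [IsProbabilityMeasure μ] (h : EProc b μ)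
    (X c : ℝ) (hX : Dio X) (S : Set ℕ) (j : ℕ) (u : Fin j → Fin b) :
    ∀ᵐ y ∂μ, Z (fun n => (if n ∈ S then 1 else 0) * (e ((b : ℝ) ^ n * (X * val y + c)) *
          (if blk n j y = u then 1 else 0))) := by
  filter_upwards [ae_sums_lin hb h X c 1 (by simpa using hX) j
      (fun v => if v = u then 1 else 0) (fun v => by split_ifs <;> simp)
      (fun n => if n ∈ S then 1 else 0) (fun n => by split_ifs <;> simp)] with y hy
  refine Z.congr hy fun n => ?_
  rw [Int.cast_one, one_mul]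

theorem sums_zero_plain (hb : 2 ≤ b) {μ : Measure (Sq b)} [IsProbabilityMeasure μ]
    (h : EProc b μ) (X c : ℝ) (hX : Dio X) :
    ∀ᵐ y ∂μ, Z (fun n => e ((b : ℝ) ^ n * (X * val y + c))) := by
  classical
  filter_upwards [sums_zero hb h X c hX Set.univ 0 (fun i => i.elim0)] with y hy
  refine hy.congr fun n => ?_
  rw [if_pos (Set.mem_univ n), if_pos (Subsingleton.elim _ _), one_mul, mul_one]

theorem joint_multi (hb : 2 ≤ b) {μ : Measure (Sq b)} [IsProbabilityMeasure μ] (h : EProc b μ)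
    {r : ℕ} (x c : Fin r → ℝ) (hx : ∀ m : Fin r → ℤ, m ≠ 0 → Dio (∑ i, m i * x i)) (S : Set ℕ) :
    ∀ᵐ y ∂μ, ∀ (j : ℕ) (u : Fin j → Fin b) (k : Fin r → ℕ) (w : ∀ i, Fin (k i) → Fin b),
      Tendsto (fun N : ℕ =>
        ((({n : ℕ | n < N ∧ n ∈ S ∧ (∀ i : Fin j, y ((n + (i : ℕ) : ℕ) : ℤ) = u i) ∧
            ∀ i, Occ (w i) (x i * val y + c i) n}.ncard : ℕ) : ℝ) -
          (({n : ℕ | n < N ∧ n ∈ S ∧ (∀ i : Fin j, y ((n + (i : ℕ) : ℕ) : ℤ) = u i)}.ncard : ℕ) : ℝ)
            / (b : ℝ) ^ (∑ i, k i)) / N) atTop (𝓝 0) := by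
  classical
  have h1 : ∀ᵐ y ∂μ, ∀ m : Fin r → ℤ, m ≠ 0 → ∀ (j : ℕ) (u : Fin j → Fin b),
      Z (fun n => (if n ∈ S then 1 else 0) * (e ((b : ℝ) ^ n *
        ((∑ i, m i * x i) * val y + ∑ i, m i * c i)) * (if blk n j y = u then 1 else 0))) := by
    rw [ae_all_iff]
    intro m
    rw [ae_all_iff]
    intro hm
    rw [ae_all_iff]
    intro j
    rw [ae_all_iff]
    intro u
    exact sums_zero hb h _ _ (hx m hm) S j u
  have h2 : ∀ᵐ y ∂μ, ∀ m : Fin r → ℤ, m ≠ 0 → Z (fun n =>
      e ((b : ℝ) ^ n * ((∑ i, m i * x i) * val y + ∑ i, m i * c i))) := by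
    rw [ae_all_iff]
    intro m
    rw [ae_all_iff]
    intro hm
    exact sums_zero_plain hb h _ _ (hx m hm)
  filter_upwards [h1, h2] with y hy1 hy2
  have key : ∀ (m : Fin r → ℤ), ∑ i, (m i : ℝ) * (x i * val y + c i) =
      (∑ i, m i * x i) * val y + ∑ i, m i * c i := by
    intro m
    rw [Finset.sum_mul, ← Finset.sum_add_distrib]
    exact Finset.sum_congr rfl fun i _ => by ring
  refine counts_multi hb y (fun i => x i * val y + c i) S (fun m hm j u => ?_) (fun i m hm => ?_)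
  · refine (hy1 m hm j u).congr fun n => ?_
    rw [key]
  · have hm' : (Pi.single i m : Fin r → ℤ) ≠ 0 := by
      intro h
      apply hm
      have := congrFun h i
      rwa [Pi.single_eq_same] at this
    refine (hy2 (Pi.single i m) hm').congr fun n => ?_
    rw [← key]
    have e1 : ∑ i', (((Pi.single i m : Fin r → ℤ) i' : ℤ) : ℝ) * (x i' * val y + c i') =
        m * (x i * val y + c i) := by
      rw [Finset.sum_eq_single i]
      · rw [Pi.single_eq_same]
      · intro i' _ hi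
        rw [Pi.single_eq_of_ne hi, Int.cast_zero, zero_mul]
      · intro h
        exact absurd (Finset.mem_univ _) h
    rw [e1]
    congr 1
    ring

/-- algebraic numbers -/
theorem dio_alg {r : ℕ} (x : Fin r → ℝ) (hx : ∀ i, IsAlgebraic ℚ (x i))
    (hli : ∀ (q : ℚ) (m : Fin r → ℤ), ∑ i, m i * x i = q → m = 0) (m : Fin r → ℤ) (hm : m ≠ 0) :
    Dio (∑ i, m i * x i) := by
  refine dio_one ?_ ?_
  · rintro ⟨q, hq⟩
    exact hm (hli q m hq.symm)
  · intro hL
    have h1 : IsAlgebraic ℤ (∑ i, (m i : ℝ) * x i) := by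
      rw [IsFractionRing.isAlgebraic_iff ℤ ℚ ℝ, isAlgebraic_iff_isIntegral]
      refine IsIntegral.sum _ fun i _ => ?_
      have h3 : IsIntegral ℚ ((m i : ℝ)) := by
        have := isIntegral_algebraMap (R := ℚ) (A := ℝ) (x := (m i : ℚ))
        simpa using this
      exact h3.mul (isAlgebraic_iff_isIntegral.1 (hx i))
    exact hL.transcendental h1

end Pool.Agent.Helper5.PE
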