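import Pool.Agent.Helper5.PE.Aes

/-! Assembly: linear images of processes of positive entropy. -/

open MeasureTheory Filter Topology

namespace Pool.Agent.Helper5.PE

open Pool.Agent.Helper5.KM Pool.Agent.Helper5.NE

variable {b : ℕ}

theorem blk_iff (y : Sq b) (n j : ℕ) (u : Fin j → Fin b) :
    blk n j y = u ↔ ∀ i : Fin j, y ((n + (i : ℕ) : ℕ) : ℤ) = u i := by
  constructor
  · intro h i
    have := congrFun h i
    rw [← this]
    unfold blk
    push_cast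
    rfl
  · intro h
    funext i
    rw [← h i]
    unfold blk
    push_cast
    rfl

open scoped Classical in
/-- from exponential sums to frequencies of words -/
theorem counts (hb : 2 ≤ b) (y : Sq b) (z : ℝ) (S : Set ℕ)
    (hy : ∀ m : ℤ, m ≠ 0 → ∀ (j : ℕ) (u : Fin j → Fin b),
      Tendsto (fun N : ℕ => (∑ n ∈ Finset.range N,
        (if n ∈ S then 1 else 0) * (e (m * (b : ℝ) ^ n * z) *
          (if blk n j y = u then 1 else 0))) / N) atTop (𝓝 (0 : ℂ))) :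
    ∀ (j k : ℕ) (u : Fin j → Fin b) (w : Fin k → Fin b),
      Tendsto (fun N : ℕ =>
        ((({n : ℕ | n < N ∧ n ∈ S ∧ (∀ i : Fin j, y ((n + (i : ℕ) : ℕ) : ℤ) = u i) ∧
            Occ w z n}.ncard : ℕ) : ℝ) -
          (({n : ℕ | n < N ∧ n ∈ S ∧ (∀ i : Fin j, y ((n + (i : ℕ) : ℕ) : ℤ) = u i)}.ncard : ℕ) : ℝ)
            / (b : ℝ) ^ k) / N) atTop (𝓝 0) := by
  classical
  intro j k u w
  obtain ⟨α, hα, hα1, hocc⟩ := occ_iff hb w
  set g : ℕ → ℝ := fun n => if n ∈ S ∧ blk n j y = u then 1 else 0 with hg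
  have hg0 : ∀ n, 0 ≤ g n := fun n => by simp only [hg]; split_ifs <;> norm_num
  have hg1 : ∀ n, g n ≤ 1 := fun n => by simp only [hg]; split_ifs <;> norm_num
  have hbk : (0 : ℝ) < 1 / (b : ℝ) ^ k := by
    have : (0 : ℝ) < b := by exact_mod_cast (by omega : 0 < b)
    positivity
  have hw := wweyl_interval hg0 hg1 (fun n => z * (b : ℝ) ^ n) (fun m hm => by
    refine (hy m hm j u).congr fun N => ?_
    congr 1
    refine Finset.sum_congr rfl fun n _ => ?_
    have e1 : (m : ℝ) * (z * (b : ℝ) ^ n) = m * (b : ℝ) ^ n * z := by ring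
    rw [e1]
    simp only [hg]
    by_cases h1 : n ∈ S <;> by_cases h2 : blk n j y = u <;> simp [h1, h2]) α
    (α + 1 / (b : ℝ) ^ k) hα (by linarith) hα1
  refine hw.congr fun N => ?_
  congr 1
  have e2 : {n : ℕ | n < N ∧ n ∈ S ∧ (∀ i : Fin j, y ((n + (i : ℕ) : ℕ) : ℤ) = u i) ∧ Occ w z n} =
      ((Finset.range N).filter (fun n => (n ∈ S ∧ blk n j y = u) ∧ Occ w z n) : Finset ℕ) := by
    ext n
    simp only [Set.mem_ofPred_eq, Finset.coe_filter, Finset.mem_range, blk_iff]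
    tauto
  have e3 : {n : ℕ | n < N ∧ n ∈ S ∧ (∀ i : Fin j, y ((n + (i : ℕ) : ℕ) : ℤ) = u i)} =
      ((Finset.range N).filter (fun n => n ∈ S ∧ blk n j y = u) : Finset ℕ) := by
    ext n
    simp only [Set.mem_ofPred_eq, Finset.coe_filter, Finset.mem_range, blk_iff]
  rw [e2, e3, Set.ncard_coe_finset, Set.ncard_coe_finset, Finset.card_filter, Finset.card_filter]
  push_cast
  rw [Finset.sum_div, ← Finset.sum_sub_distrib]
  refine Finset.sum_congr rfl fun n _ => ?_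
  simp only [hg, hocc z n]
  by_cases h1 : n ∈ S ∧ blk n j y = u
  · by_cases h2 : α ≤ Int.fract (z * (b : ℝ) ^ n) ∧ Int.fract (z * (b : ℝ) ^ n) < α + 1 / (b : ℝ) ^ k
    · rw [if_pos h1, if_pos h2, if_pos ⟨h1, h2⟩]; ring
    · rw [if_pos h1, if_neg h2, if_neg (fun h => h2 h.2)]; ring
  · have h3 : ¬ ((n ∈ S ∧ blk n j y = u) ∧ α ≤ Int.fract (z * (b : ℝ) ^ n) ∧
        Int.fract (z * (b : ℝ) ^ n) < α + 1 / (b : ℝ) ^ k) := fun h => h1 h.1
    rw [if_neg h1, if_neg h3]; ring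

theorem joint (hb : 2 ≤ b) {μ : Measure (Sq b)} [IsProbabilityMeasure μ] (h : EProc b μ)
    {x : ℝ} (hx : Irrational x) (hL : ¬ Liouville x) (c : ℝ) (S : Set ℕ) :
    ∀ᵐ y ∂μ, ∀ (j k : ℕ) (u : Fin j → Fin b) (w : Fin k → Fin b),
      Tendsto (fun N : ℕ =>
        ((({n : ℕ | n < N ∧ n ∈ S ∧ (∀ i : Fin j, y ((n + (i : ℕ) : ℕ) : ℤ) = u i) ∧
            Occ w (x * val y + c) n}.ncard : ℕ) : ℝ) -
          (({n : ℕ | n < N ∧ n ∈ S ∧ (∀ i : Fin j, y ((n + (i : ℕ) : ℕ) : ℤ) = u i)}.ncard : ℕ) : ℝ)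
            / (b : ℝ) ^ k) / N) atTop (𝓝 0) := by
  classical
  have hae : ∀ᵐ y ∂μ, ∀ (m : ℤ), m ≠ 0 → ∀ (j : ℕ) (u : Fin j → Fin b),
      Tendsto (fun N : ℕ => (∑ n ∈ Finset.range N,
        (if n ∈ S then 1 else 0) * (e (m * (b : ℝ) ^ n * (x * val y + c)) *
          (if blk n j y = u then 1 else 0))) / N) atTop (𝓝 (0 : ℂ)) := by
    rw [ae_all_iff]
    intro m
    rw [ae_all_iff]
    intro hm
    rw [ae_all_iff]
    intro j
    rw [ae_all_iff]
    intro u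
    refine ae_sums_lin hb h x c m (dio_of_not_liouville hx hL m hm) j
      (fun v => if v = u then 1 else 0) (fun v => ?_) (fun n => if n ∈ S then 1 else 0)
      (fun n => ?_)
    · split_ifs <;> simp
    · split_ifs <;> simp
  filter_upwards [hae] with y hy
  exact counts hb y _ S hy

end Pool.Agent.Helper5.PE
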