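import Pool.Agent.Helper5.PE.Main

/-! Weighted Weyl criterion in several variables. -/

open MeasureTheory Filter Topology

namespace Pool.Agent.Helper5.PE

open Pool.Agent.Helper5.KM Pool.Agent.Helper5.NE

/-- the averages tend to zero -/
def Z (a : ℕ → ℂ) : Prop :=
  Tendsto (fun N : ℕ => (∑ n ∈ Finset.range N, a n) / N) atTop (𝓝 0)

/-- the averages tend to zero (real sequences) -/
def ZR (a : ℕ → ℝ) : Prop :=
  Tendsto (fun N : ℕ => (∑ n ∈ Finset.range N, a n) / N) atTop (𝓝 0)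

theorem Z.add {a a' : ℕ → ℂ} (h : Z a) (h' : Z a') : Z (fun n => a n + a' n) := by
  have := Tendsto.add h h'
  rw [add_zero] at this
  refine this.congr fun N => ?_
  rw [Finset.sum_add_distrib, add_div]

theorem Z.mul_const {a : ℕ → ℂ} (h : Z a) (c : ℂ) : Z (fun n => a n * c) := by
  have := Tendsto.mul_const c h
  rw [zero_mul] at this
  refine this.congr fun N => ?_
  rw [← Finset.sum_mul, div_mul_eq_mul_div]

theorem Z.conj {a : ℕ → ℂ} (h : Z a) : Z (fun n => (starRingEnd ℂ) (a n)) := by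
  have := (Complex.continuous_conj.tendsto 0).comp h
  rw [map_zero] at this
  refine this.congr fun N => ?_
  simp only [Function.comp]
  rw [map_div₀, map_sum, Complex.conj_natCast]

theorem Z.congr {a a' : ℕ → ℂ} (h : Z a) (he : ∀ n, a n = a' n) : Z a' := by
  have : a = a' := funext he
  rwa [← this]

theorem ZR.add {a a' : ℕ → ℝ} (h : ZR a) (h' : ZR a') : ZR (fun n => a n + a' n) := by
  have := Tendsto.add h h'
  rw [add_zero] at this
  refine this.congr fun N => ?_
  rw [Finset.sum_add_distrib, add_div]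

theorem ZR.mul_const {a : ℕ → ℝ} (h : ZR a) (c : ℝ) : ZR (fun n => a n * c) := by
  have := Tendsto.mul_const c h
  rw [zero_mul] at this
  refine this.congr fun N => ?_
  rw [← Finset.sum_mul, div_mul_eq_mul_div]

theorem ZR.congr {a a' : ℕ → ℝ} (h : ZR a) (he : ∀ n, a n = a' n) : ZR a' := by
  have : a = a' := funext he
  rwa [← this]

theorem ZR.ofReal {a : ℕ → ℝ} (h : ZR a) : Z (fun n => (a n : ℂ)) := by
  have := (Complex.continuous_ofReal.tendsto 0).comp h
  rw [Complex.ofReal_zero] at this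
  refine this.congr fun N => ?_
  simp only [Function.comp]
  push_cast
  rfl

/-- indicator of an interval mod 1 -/
noncomputable def ind (α β t : ℝ) : ℝ := by
  classical exact if α ≤ Int.fract t ∧ Int.fract t < β then 1 else 0

theorem ind_nonneg (α β t : ℝ) : 0 ≤ ind α β t := by
  unfold ind; split_ifs <;> norm_num

theorem ind_le_one (α β t : ℝ) : ind α β t ≤ 1 := by
  unfold ind; split_ifs <;> norm_num

theorem conj_e (t : ℝ) : (starRingEnd ℂ) (e t) = e (-t) := by
  have h1 : e t * e (-t) = 1 := by rw [← e_add, add_neg_cancel, e_zero]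
  have h2 : (starRingEnd ℂ) (e t) * e t = 1 := by
    rw [Complex.conj_mul']
    simp [norm_e]
  have h3 : e t ≠ 0 := by
    intro h
    rw [h, zero_mul] at h1
    exact zero_ne_one h1
  have h4 : (starRingEnd ℂ) (e t) * e t = e (-t) * e t := by rw [h2, mul_comm, h1]
  exact mul_right_cancel₀ h3 h4

/-- one variable, real part of a complex weight -/
theorem re_weyl {a : ℕ → ℂ} (ha : ∀ n, ‖a n‖ ≤ 1) (t : ℕ → ℝ)
    (h0 : ∀ m : ℤ, Z (fun n => a n * e (m * t n)))
    (h1 : ∀ m : ℤ, m ≠ 0 → Z (fun n => e (m * t n)))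
    (α β : ℝ) (hα : 0 ≤ α) (hαβ : α ≤ β) (hβ : β ≤ 1) :
    ZR (fun n => (a n).re * (ind α β (t n) - (β - α))) := by
  classical
  have hre : ∀ n, |(a n).re| ≤ 1 := fun n => (Complex.abs_re_le_norm _).trans (ha n)
  have k1 := wweyl_interval (g := fun n => (1 + (a n).re) / 2)
    (fun n => by have := (abs_le.1 (hre n)).1; linarith)
    (fun n => by have := (abs_le.1 (hre n)).2; linarith) t (fun m hm => by
      have z1 := (h1 m hm).mul_const (1 / 2)
      have z2 := (h0 m).mul_const (1 / 4)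
      have z3 := (h0 (-m)).conj.mul_const (1 / 4)
      refine ((z1.add z2).add z3).congr fun n => ?_
      have e1 : (((1 + (a n).re) / 2 : ℝ) : ℂ) =
          1 / 2 + 1 / 4 * (a n + (starRingEnd ℂ) (a n)) := by
        rw [Complex.add_conj]
        push_cast
        ring
      rw [e1, map_mul, conj_e]
      have e2 : -(((-m : ℤ) : ℝ) * t n) = m * t n := by push_cast; ring
      rw [e2]
      ring) α β hα hαβ hβ
  have k2 := wweyl_interval (g := fun _ => 1) (fun n => zero_le_one) (fun n => le_rfl) t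
    (fun m hm => (h1 m hm).congr fun n => by rw [Complex.ofReal_one, one_mul]) α β hα hαβ hβ
  have k1' : ZR (fun n => (1 + (a n).re) / 2 * (ind α β (t n) - (β - α))) := by
    refine ZR.congr k1 fun n => ?_
    unfold ind
    rfl
  have k2' : ZR (fun n => 1 * (ind α β (t n) - (β - α))) := by
    refine ZR.congr k2 fun n => ?_
    unfold ind
    rfl
  refine ((k1'.mul_const 2).add (k2'.mul_const (-1))).congr fun n => ?_
  ring

/-- one variable, complex weight -/
theorem cweyl {a : ℕ → ℂ} (ha : ∀ n, ‖a n‖ ≤ 1) (t : ℕ → ℝ)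
    (h0 : ∀ m : ℤ, Z (fun n => a n * e (m * t n)))
    (h1 : ∀ m : ℤ, m ≠ 0 → Z (fun n => e (m * t n)))
    (α β : ℝ) (hα : 0 ≤ α) (hαβ : α ≤ β) (hβ : β ≤ 1) :
    Z (fun n => a n * (ind α β (t n) : ℂ)) := by
  have k1 := re_weyl ha t h0 h1 α β hα hαβ hβ
  have k2 := re_weyl (a := fun n => a n * (-Complex.I)) (fun n => by
    rw [norm_mul, norm_neg, Complex.norm_I, mul_one]; exact ha n) t
    (fun m => ((h0 m).mul_const (-Complex.I)).congr fun n => by ring) h1 α β hα hαβ hβ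
  have k3 := (h0 0).mul_const ((β - α : ℝ) : ℂ)
  refine ((k1.ofReal.add (k2.ofReal.mul_const Complex.I)).add k3).congr fun n => ?_
  have e0 : e (((0 : ℤ) : ℝ) * t n) = 1 := by rw [Int.cast_zero, zero_mul, e_zero]
  rw [e0]
  have e1 : (a n * -Complex.I).re = (a n).im := by simp
  rw [e1]
  have e2 : a n = ((a n).re : ℂ) + ((a n).im : ℂ) * Complex.I := (Complex.re_add_im _).symm
  push_cast
  calc ((a n).re : ℂ) * ((ind α β (t n) : ℂ) - ((β : ℂ) - α)) +
        ((a n).im : ℂ) * ((ind α β (t n) : ℂ) - ((β : ℂ) - α)) * Complex.I +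
        a n * 1 * ((β : ℂ) - α)
      = (((a n).re : ℂ) + ((a n).im : ℂ) * Complex.I) * ((ind α β (t n) : ℂ) - ((β : ℂ) - α)) +
        a n * ((β : ℂ) - α) := by ring
    _ = a n * (ind α β (t n) : ℂ) := by rw [← e2]; ring

section multi

variable {ι : Type} [Fintype ι] [DecidableEq ι]

theorem multi_aux {g : ℕ → ℝ} (hg0 : ∀ n, 0 ≤ g n) (hg1 : ∀ n, g n ≤ 1) (t : ι → ℕ → ℝ)
    (H1 : ∀ m : ι → ℤ, m ≠ 0 → Z (fun n => (g n : ℂ) * e (∑ i, m i * t i n)))
    (H2 : ∀ i, ∀ m : ℤ, m ≠ 0 → Z (fun n => e (m * t i n)))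
    (α β : ι → ℝ) (hα : ∀ i, 0 ≤ α i) (hαβ : ∀ i, α i ≤ β i) (hβ : ∀ i, β i ≤ 1)
    (s : Finset ι) : ∀ m : ι → ℤ, (∃ i, i ∉ s ∧ m i ≠ 0) →
      Z (fun n => (g n : ℂ) * e (∑ i, m i * t i n) *
        ((∏ i ∈ s, ind (α i) (β i) (t i n) : ℝ) : ℂ)) := by
  induction s using Finset.induction_on with
  | empty =>
    rintro m ⟨i, -, hi⟩
    refine (H1 m (fun h => hi (by rw [h]; rfl))).congr fun n => ?_
    rw [Finset.prod_empty, Complex.ofReal_one, mul_one]
  | insert i0 s hi0 ih =>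
    rintro m ⟨i1, hi1, hm1⟩
    rw [Finset.mem_insert, not_or] at hi1
    have hp : ∀ n, |∏ i ∈ s, ind (α i) (β i) (t i n)| ≤ 1 := by
      intro n
      rw [abs_of_nonneg (Finset.prod_nonneg fun i _ => ind_nonneg _ _ _)]
      exact Finset.prod_le_one (fun i _ => ind_nonneg _ _ _) fun i _ => ind_le_one _ _ _
    have k := cweyl (a := fun n => (g n : ℂ) * e (∑ i, m i * t i n) *
        ((∏ i ∈ s, ind (α i) (β i) (t i n) : ℝ) : ℂ)) (fun n => by
      rw [norm_mul, norm_mul, norm_e, mul_one, Complex.norm_real, Complex.norm_real,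
        Real.norm_eq_abs, Real.norm_eq_abs, abs_of_nonneg (hg0 n)]
      exact mul_le_one₀ (hg1 n) (abs_nonneg _) (hp n)) (t i0) (fun m' => by
      refine (ih (m + Pi.single i0 m') ⟨i1, hi1.2, ?_⟩).congr fun n => ?_
      · rw [Pi.add_apply, Pi.single_eq_of_ne hi1.1, add_zero]
        exact hm1
      · have e1 : ∑ i, (((m + Pi.single i0 m' : ι → ℤ) i : ℤ) : ℝ) * t i n =
            (∑ i, (m i : ℝ) * t i n) + m' * t i0 n := by
          simp only [Pi.add_apply, Int.cast_add, add_mul, Finset.sum_add_distrib]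
          congr 1
          rw [Finset.sum_eq_single i0]
          · rw [Pi.single_eq_same]
          · intro i _ hi
            rw [Pi.single_eq_of_ne hi, Int.cast_zero, zero_mul]
          · intro h
            exact absurd (Finset.mem_univ _) h
        rw [e1, e_add]
        ring) (H2 i0) (α i0) (β i0) (hα i0) (hαβ i0) (hβ i0)
    refine k.congr fun n => ?_
    rw [Finset.prod_insert hi0]
    push_cast
    ring

theorem multi {g : ℕ → ℝ} (hg0 : ∀ n, 0 ≤ g n) (hg1 : ∀ n, g n ≤ 1) (t : ι → ℕ → ℝ)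
    (H1 : ∀ m : ι → ℤ, m ≠ 0 → Z (fun n => (g n : ℂ) * e (∑ i, m i * t i n)))
    (H2 : ∀ i, ∀ m : ℤ, m ≠ 0 → Z (fun n => e (m * t i n)))
    (α β : ι → ℝ) (hα : ∀ i, 0 ≤ α i) (hαβ : ∀ i, α i ≤ β i) (hβ : ∀ i, β i ≤ 1)
    (s : Finset ι) : ZR (fun n => g n * ((∏ i ∈ s, ind (α i) (β i) (t i n)) -
      ∏ i ∈ s, (β i - α i))) := by
  classical
  induction s using Finset.induction_on with
  | empty =>
    unfold ZR
    simp
  | insert i0 s hi0 ih =>
    have hp0 : ∀ n, 0 ≤ ∏ i ∈ s, ind (α i) (β i) (t i n) := fun n =>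
      Finset.prod_nonneg fun i _ => ind_nonneg _ _ _
    have hp1 : ∀ n, ∏ i ∈ s, ind (α i) (β i) (t i n) ≤ 1 := fun n =>
      Finset.prod_le_one (fun i _ => ind_nonneg _ _ _) fun i _ => ind_le_one _ _ _
    have k := wweyl_interval (g := fun n => g n * ∏ i ∈ s, ind (α i) (β i) (t i n))
      (fun n => mul_nonneg (hg0 n) (hp0 n)) (fun n => mul_le_one₀ (hg1 n) (hp0 n) (hp1 n)) (t i0)
      (fun m hm => by
        refine (multi_aux hg0 hg1 t H1 H2 α β hα hαβ hβ s (Pi.single i0 m)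
          ⟨i0, hi0, by rw [Pi.single_eq_same]; exact hm⟩).congr fun n => ?_
        have e1 : ∑ i, (((Pi.single i0 m : ι → ℤ) i : ℤ) : ℝ) * t i n = m * t i0 n := by
          rw [Finset.sum_eq_single i0]
          · rw [Pi.single_eq_same]
          · intro i _ hi
            rw [Pi.single_eq_of_ne hi, Int.cast_zero, zero_mul]
          · intro h
            exact absurd (Finset.mem_univ _) h
        rw [e1]
        push_cast
        ring) (α i0) (β i0) (hα i0) (hαβ i0) (hβ i0)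
    have k' : ZR (fun n => g n * (∏ i ∈ s, ind (α i) (β i) (t i n)) *
        (ind (α i0) (β i0) (t i0 n) - (β i0 - α i0))) := by
      refine ZR.congr k fun n => ?_
      unfold ind
      rfl
    refine (k'.add (ih.mul_const (β i0 - α i0))).congr fun n => ?_
    rw [Finset.prod_insert hi0, Finset.prod_insert hi0]
    ring

end multi

variable {b : ℕ}

open scoped Classical in
/-- from exponential sums to joint frequencies of words -/
theorem counts_multi (hb : 2 ≤ b) {r : ℕ} (y : Sq b) (z : Fin r → ℝ) (S : Set ℕ)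
    (hy : ∀ m : Fin r → ℤ, m ≠ 0 → ∀ (j : ℕ) (u : Fin j → Fin b),
      Z (fun n => (if n ∈ S then 1 else 0) * (e ((b : ℝ) ^ n * ∑ i, m i * z i) *
          (if blk n j y = u then 1 else 0))))
    (hy' : ∀ i, ∀ m : ℤ, m ≠ 0 → Z (fun n => e (m * (z i * (b : ℝ) ^ n)))) :
    ∀ (j : ℕ) (u : Fin j → Fin b) (k : Fin r → ℕ) (w : ∀ i, Fin (k i) → Fin b),
      Tendsto (fun N : ℕ =>
        ((({n : ℕ | n < N ∧ n ∈ S ∧ (∀ i : Fin j, y ((n + (i : ℕ) : ℕ) : ℤ) = u i) ∧
            ∀ i, Occ (w i) (z i) n}.ncard : ℕ) : ℝ) -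
          (({n : ℕ | n < N ∧ n ∈ S ∧ (∀ i : Fin j, y ((n + (i : ℕ) : ℕ) : ℤ) = u i)}.ncard : ℕ) : ℝ)
            / (b : ℝ) ^ (∑ i, k i)) / N) atTop (𝓝 0) := by
  intro j u k w
  have hb0 : (0 : ℝ) < b := by exact_mod_cast (by omega : 0 < b)
  choose α hα hα1 hocc using fun i => occ_iff hb (w i)
  set g : ℕ → ℝ := fun n => if n ∈ S ∧ blk n j y = u then 1 else 0 with hg
  have hg0 : ∀ n, 0 ≤ g n := fun n => by simp only [hg]; split_ifs <;> norm_num
  have hg1 : ∀ n, g n ≤ 1 := fun n => by simp only [hg]; split_ifs <;> norm_num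
  have hw := multi hg0 hg1 (fun i n => z i * (b : ℝ) ^ n) (fun m hm => by
    refine (hy m hm j u).congr fun n => ?_
    have e1 : ∑ i, (m i : ℝ) * (z i * (b : ℝ) ^ n) = (b : ℝ) ^ n * ∑ i, m i * z i := by
      rw [Finset.mul_sum]
      exact Finset.sum_congr rfl fun i _ => by ring
    rw [e1]
    simp only [hg]
    by_cases h1 : n ∈ S <;> by_cases h2 : blk n j y = u <;> simp [h1, h2]) hy' α
    (fun i => α i + 1 / (b : ℝ) ^ (k i)) hα (fun i => by
      have : (0 : ℝ) < 1 / (b : ℝ) ^ (k i) := by positivity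
      linarith) hα1 Finset.univ
  refine Tendsto.congr (fun N => ?_) hw
  congr 1
  have e2 : {n : ℕ | n < N ∧ n ∈ S ∧ (∀ i : Fin j, y ((n + (i : ℕ) : ℕ) : ℤ) = u i) ∧
      ∀ i, Occ (w i) (z i) n} =
      ((Finset.range N).filter (fun n => (n ∈ S ∧ blk n j y = u) ∧
        ∀ i, Occ (w i) (z i) n) : Finset ℕ) := by
    ext n
    simp only [Set.mem_ofPred_eq, Finset.coe_filter, Finset.mem_range, blk_iff]
    tauto
  have e3 : {n : ℕ | n < N ∧ n ∈ S ∧ (∀ i : Fin j, y ((n + (i : ℕ) : ℕ) : ℤ) = u i)} =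
      ((Finset.range N).filter (fun n => n ∈ S ∧ blk n j y = u) : Finset ℕ) := by
    ext n
    simp only [Set.mem_ofPred_eq, Finset.coe_filter, Finset.mem_range, blk_iff]
  rw [e2, e3, Set.ncard_coe_finset, Set.ncard_coe_finset, Finset.card_filter, Finset.card_filter]
  push_cast
  rw [Finset.sum_div, ← Finset.sum_sub_distrib]
  refine Finset.sum_congr rfl fun n _ => ?_
  have hprod : ∏ i, (α i + 1 / (b : ℝ) ^ (k i) - α i) = 1 / (b : ℝ) ^ (∑ i, k i) := by
    rw [← Finset.prod_pow_eq_pow_sum, one_div, ← Finset.prod_inv_distrib]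
    exact Finset.prod_congr rfl fun i _ => by rw [add_sub_cancel_left, one_div]
  have hind : ∏ i, ind (α i) (α i + 1 / (b : ℝ) ^ (k i)) (z i * (b : ℝ) ^ n) =
      if ∀ i, Occ (w i) (z i) n then 1 else 0 := by
    by_cases h : ∀ i, Occ (w i) (z i) n
    · rw [if_pos h]
      refine Finset.prod_eq_one fun i _ => ?_
      unfold ind
      rw [if_pos ((hocc i (z i) n).1 (h i))]
    · rw [if_neg h]
      push Not at h
      obtain ⟨i, hi⟩ := h
      refine Finset.prod_eq_zero (Finset.mem_univ i) ?_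
      unfold ind
      rw [if_neg (fun h => hi ((hocc i (z i) n).2 h))]
  rw [hprod, hind]
  simp only [hg]
  by_cases h1 : n ∈ S ∧ blk n j y = u
  · by_cases h2 : ∀ i, Occ (w i) (z i) n
    · rw [if_pos h1, if_pos h2, if_pos ⟨h1, h2⟩]; ring
    · rw [if_pos h1, if_neg h2, if_neg (fun h => h2 h.2)]; ring
  · have h3 : ¬ ((n ∈ S ∧ blk n j y = u) ∧ ∀ i, Occ (w i) (z i) n) := fun h => h1 h.1
    rw [if_neg h1, if_neg h3]; ring

end Pool.Agent.Helper5.PE
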