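import Pool.Agent.Helper5.PE.Alg
import Pool.Agent.Helper5.NE.Main

/-! Several smooth images of a process of positive entropy. -/

open MeasureTheory Filter Topology

namespace Pool.Agent.Helper5.PE

open Pool.Agent.Helper5.KM Pool.Agent.Helper5.NE
open Pool.Agent.Helper6.NE (nullw int_words)
open Pool.Agent.Helper35.NE (freeze)

variable {b : ℕ}

theorem ae_sums_dio (hb : 2 ≤ b) {μ : Measure (Sq b)} [IsProbabilityMeasure μ] (h : EProc b μ)
    (f f' f'' : ℝ → ℝ) (hf : ∀ t ∈ Set.Icc (0 : ℝ) 1, HasDerivWithinAt f (f' t) (Set.Icc 0 1) t)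
    (hf' : ∀ t ∈ Set.Icc (0 : ℝ) 1, HasDerivWithinAt f' (f'' t) (Set.Icc 0 1) t)
    (hf'' : ContinuousOn f'' (Set.Icc (0 : ℝ) 1))
    (H : ℤ) (r : ℕ) (G : (Fin r → Fin b) → ℂ) (hG : ∀ w, ‖G w‖ ≤ 1)
    (a : ℕ → ℂ) (ha : ∀ n, ‖a n‖ ≤ 1) :
    ∀ᵐ y ∂μ, Dio (H * f' (val y)) → Tendsto (fun N : ℕ => (∑ n ∈ Finset.range N,
      a n * (e (H * (b : ℝ) ^ n * f (val y)) * G (blk n r y))) / N) atTop (𝓝 0) := by
  have hst : MeasurePreserving (sh 1) μ μ := h.erg.toMeasurePreserving
  have hval : ∀ y : Sq b, val y ∈ Set.Icc (0 : ℝ) 1 := fun y => ⟨val_nonneg y, val_le_one hb y⟩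
  have hcf : ContinuousOn f (Set.Icc 0 1) := fun t ht => (hf t ht).continuousWithinAt
  have hcf' : ContinuousOn f' (Set.Icc 0 1) := fun t ht => (hf' t ht).continuousWithinAt
  obtain ⟨C1, hC1⟩ := isCompact_Icc.exists_bound_of_continuousOn hcf'
  obtain ⟨C2, hC2⟩ := isCompact_Icc.exists_bound_of_continuousOn hf''
  simp only [Real.norm_eq_abs] at hC1 hC2
  set C : ℝ := max C1 C2 with hC
  have h0m : (0 : ℝ) ∈ Set.Icc (0 : ℝ) 1 := ⟨le_rfl, zero_le_one⟩
  have hC0 : 0 ≤ C := (abs_nonneg _).trans ((hC1 0 h0m).trans (le_max_left _ _))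
  have hn : ∀ᵐ y ∂μ, ∀ L : ℕ, ∀ δ : ℝ, 0 < δ → ∀ᶠ N : ℕ in atTop,
      ‖(∑ n ∈ Finset.range N, a n * (e (H * (b : ℝ) ^ n * f (val y)) * G (blk n r y))) / N‖ ≤
        Ps μ (H * f' (val y)) r G L + δ := by
    rw [ae_all_iff]
    intro L
    have h1 := nlb hb (fun f f' hf hf' C hC hT H r G hG L n hn X δ hδ =>
        freeze hb hst f f' hf hf' C hC hT H r G hG L n hn X δ hδ) h.erg (fun t => f (clamp t))
      (fun t => f' (clamp t)) (comp_clamp hcf) (comp_clamp hcf') C hC0
      (fun s hs t ht => by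
        rw [clamp_of_mem hs, clamp_of_mem ht]
        exact (taylor hf hf' hC2 s hs t ht).trans
          (mul_le_mul_of_nonneg_right (le_max_right _ _) (sq_nonneg _)))
      (fun s hs t ht => by
        rw [clamp_of_mem hs, clamp_of_mem ht]
        exact (lip_of_deriv (convex_Icc 0 1) hf hC1 s hs t ht).trans
          (mul_le_mul_of_nonneg_right (le_max_left _ _) (abs_nonneg _)))
      (fun s hs t ht => by
        rw [clamp_of_mem hs, clamp_of_mem ht]
        exact (lip_of_deriv (convex_Icc 0 1) hf' hC2 s hs t ht).trans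
          (mul_le_mul_of_nonneg_right (le_max_right _ _) (abs_nonneg _)))
      (H : ℝ) r G hG a ha L
    simp only [clamp_of_mem (hval _)] at h1
    exact h1
  filter_upwards [hn] with y hy1 hX
  have hPs := ps_zero hb h (H * f' (val y)) hX r G hG
  rw [Metric.tendsto_atTop]
  intro δ hδ
  obtain ⟨L, hL⟩ := (hPs.eventually (gt_mem_nhds (show (0 : ℝ) < δ / 3 by positivity))).exists
  obtain ⟨N0, hN0⟩ := eventually_atTop.1 (hy1 L (δ / 3) (by positivity))
  refine ⟨N0, fun N hN => ?_⟩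
  rw [dist_zero_right]
  have := hN0 N hN
  linarith

open scoped Classical in
theorem joint_nonlinear (hb : 2 ≤ b) {μ : Measure (Sq b)} [IsProbabilityMeasure μ]
    (h : EProc b μ) {r : ℕ} (f f' f'' : Fin r → ℝ → ℝ)
    (hf : ∀ i, ∀ t ∈ Set.Icc (0 : ℝ) 1, HasDerivWithinAt (f i) (f' i t) (Set.Icc 0 1) t)
    (hf' : ∀ i, ∀ t ∈ Set.Icc (0 : ℝ) 1, HasDerivWithinAt (f' i) (f'' i t) (Set.Icc 0 1) t)
    (hf'' : ∀ i, ContinuousOn (f'' i) (Set.Icc (0 : ℝ) 1)) (S : Set ℕ) :
    ∀ᵐ y ∂μ, (∀ m : Fin r → ℤ, m ≠ 0 → ∑ i, m i * f'' i (val y) ≠ 0 ∨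
      Dio (∑ i, m i * f' i (val y))) →
      ∀ (j : ℕ) (u : Fin j → Fin b) (k : Fin r → ℕ) (w : ∀ i, Fin (k i) → Fin b),
      Tendsto (fun N : ℕ =>
        ((({n : ℕ | n < N ∧ n ∈ S ∧ (∀ i : Fin j, y ((n + (i : ℕ) : ℕ) : ℤ) = u i) ∧
            ∀ i, Occ (w i) (f i (val y)) n}.ncard : ℕ) : ℝ) -
          (({n : ℕ | n < N ∧ n ∈ S ∧ (∀ i : Fin j, y ((n + (i : ℕ) : ℕ) : ℤ) = u i)}.ncard : ℕ) : ℝ)
            / (b : ℝ) ^ (∑ i, k i)) / N) atTop (𝓝 0) := by
  have hs : ∀ (m : Fin r → ℤ), ∀ (T : Set ℕ) (j : ℕ) (u : Fin j → Fin b),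
      ∀ᵐ y ∂μ, (∑ i, m i * f'' i (val y) ≠ 0 ∨ Dio (∑ i, m i * f' i (val y))) →
        Z (fun n => (if n ∈ T then 1 else 0) *
        (e ((b : ℝ) ^ n * ∑ i, m i * f i (val y)) * (if blk n j y = u then 1 else 0))) := by
    intro m T j u
    have g1 : ∀ t ∈ Set.Icc (0 : ℝ) 1, HasDerivWithinAt (fun t => ∑ i, m i * f i t)
        (∑ i, m i * f' i t) (Set.Icc 0 1) t :=
      fun t ht => HasDerivWithinAt.fun_sum fun i _ => (hf i t ht).const_mul _
    have g2 : ∀ t ∈ Set.Icc (0 : ℝ) 1, HasDerivWithinAt (fun t => ∑ i, m i * f' i t)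
        (∑ i, m i * f'' i t) (Set.Icc 0 1) t :=
      fun t ht => HasDerivWithinAt.fun_sum fun i _ => (hf' i t ht).const_mul _
    have g3 : ContinuousOn (fun t => ∑ i, m i * f'' i t) (Set.Icc (0 : ℝ) 1) :=
      continuousOn_finsetSum _ fun i _ => continuousOn_const.mul (hf'' i)
    have h1 := ae_sums hb h (fun t => ∑ i, m i * f i t) (fun t => ∑ i, m i * f' i t)
      (fun t => ∑ i, m i * f'' i t) g1 g2 g3 1 one_ne_zero j
      (fun v => if v = u then 1 else 0) (fun v => by split_ifs <;> simp)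
      (fun n => if n ∈ T then 1 else 0) (fun n => by split_ifs <;> simp)
    have h2 := ae_sums_dio hb h (fun t => ∑ i, m i * f i t) (fun t => ∑ i, m i * f' i t)
      (fun t => ∑ i, m i * f'' i t) g1 g2 g3 1 j
      (fun v => if v = u then 1 else 0) (fun v => by split_ifs <;> simp)
      (fun n => if n ∈ T then 1 else 0) (fun n => by split_ifs <;> simp)
    filter_upwards [h1, h2] with y hy hy' hy0
    rcases hy0 with hy0 | hy0
    · refine Z.congr (hy hy0) fun n => ?_
      rw [Int.cast_one, one_mul]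
    · refine Z.congr (hy' (by rw [Int.cast_one, one_mul]; exact hy0)) fun n => ?_
      rw [Int.cast_one, one_mul]
  have h1 : ∀ᵐ y ∂μ, ∀ m : Fin r → ℤ, ∀ (j : ℕ) (u : Fin j → Fin b),
      (∑ i, m i * f'' i (val y) ≠ 0 ∨ Dio (∑ i, m i * f' i (val y))) →
        Z (fun n => (if n ∈ S then 1 else 0) *
        (e ((b : ℝ) ^ n * ∑ i, m i * f i (val y)) * (if blk n j y = u then 1 else 0))) := by
    rw [ae_all_iff]
    intro m
    rw [ae_all_iff]
    intro j
    rw [ae_all_iff]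
    intro u
    exact hs m S j u
  have h2 : ∀ᵐ y ∂μ, ∀ m : Fin r → ℤ,
      (∑ i, m i * f'' i (val y) ≠ 0 ∨ Dio (∑ i, m i * f' i (val y))) →
      Z (fun n => e ((b : ℝ) ^ n * ∑ i, m i * f i (val y))) := by
    rw [ae_all_iff]
    intro m
    filter_upwards [hs m Set.univ 0 (fun i => i.elim0)] with y hy hy0
    refine (hy hy0).congr fun n => ?_
    rw [if_pos (Set.mem_univ n), if_pos (Subsingleton.elim _ _), one_mul, mul_one]
  filter_upwards [h1, h2] with y hy1 hy2 hy0
  refine counts_multi hb y (fun i => f i (val y)) S (fun m hm j u => hy1 m j u (hy0 m hm))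
    (fun i m hm => ?_)
  have hm' : (Pi.single i m : Fin r → ℤ) ≠ 0 := by
    intro h
    apply hm
    have := congrFun h i
    rwa [Pi.single_eq_same] at this
  refine (hy2 (Pi.single i m) (hy0 _ hm')).congr fun n => ?_
  have e1 : ∑ i', (((Pi.single i m : Fin r → ℤ) i' : ℤ) : ℝ) * f i' (val y) =
      m * f i (val y) := by
    rw [Finset.sum_eq_single i]
    · rw [Pi.single_eq_same]
    · intro i' _ hi
      rw [Pi.single_eq_of_ne hi, Int.cast_zero, zero_mul]
    · intro h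
      exact absurd (Finset.mem_univ _) h
  rw [e1]
  congr 1
  ring

/-- no atoms -/
theorem no_atoms (hb : 2 ≤ b) {μ : Measure (Sq b)} [IsProbabilityMeasure μ] (h : EProc b μ)
    (v : ℝ) : μ {y | val y = v} = 0 := by
  have hst : MeasurePreserving (sh 1) μ μ := h.erg.toMeasurePreserving
  obtain ⟨s, hs, hW⟩ := nullw (posd h) (fun κ α hκ hκ1 hα p hp hp1 hpc n w =>
      word_bound hst κ α hκ hκ1 hα p hp hp1 hpc n w)
  obtain ⟨C, hC, hwords⟩ := int_words hb Set.univ id 1 one_pos (fun u _ w _ => by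
    rw [one_mul]; rfl)
  choose W hW1 hW2 using fun K : ℕ => hwords K v
  have h1 := hW C 1 0 le_rfl (fun K' => W (1 * K')) (fun K' => (hW1 _).trans (by
    have : (1 : ℝ) ≤ Real.exp (s * ((1 * K' : ℕ) : ℝ)) := Real.one_le_exp (by positivity)
    nlinarith))
  refine measure_mono_null (fun y hy => ?_) h1
  intro K' _
  refine hW2 (1 * K') y (Set.mem_univ _) ?_
  have hy' : val y = v := hy
  have hb0 : (0 : ℝ) < b := by exact_mod_cast (by omega : 0 < b)
  simp only [id]
  rw [hy', sub_self, abs_zero]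
  positivity

theorem analyticAt_sqrt {s : ℝ} (hs : 0 < s) : AnalyticAt ℝ (fun s : ℝ => √s) s := by
  have h1 : AnalyticAt ℝ (fun s : ℝ => Real.exp (Real.log s * (1 / 2))) s :=
    ((analyticAt_log hs).mul analyticAt_const).rexp'
  refine h1.congr ?_
  filter_upwards [lt_mem_nhds hs] with u hu
  have h2 : Real.log u * (1 / 2) = Real.log u / 2 := by ring
  rw [h2, Real.exp_half, Real.exp_log hu]

/-- the functions `(x_i + c t)^(-3/2)` are linearly independent on the unit interval, in a strong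
sense -/
theorem finite_zeros {r : ℕ} (x : Fin r → ℝ) (hx : ∀ i, 0 < x i) (hinj : Function.Injective x)
    {c : ℝ} (hc : 0 < c) (m : Fin r → ℝ) (hm : m ≠ 0) :
    {t : ℝ | t ∈ Set.Icc (0 : ℝ) 1 ∧ ∑ i, m i * ((√(x i + c * t)) ^ 3)⁻¹ = 0}.Finite := by
  classical
  by_contra hinf
  -- the smallest `x i`
  obtain ⟨i0, hi0, hmin⟩ : ∃ i0, m i0 ≠ 0 ∧ ∀ i, m i ≠ 0 → x i0 ≤ x i := by
    have hne : (Finset.univ.filter fun i => m i ≠ 0).Nonempty := by
      by_contra hcon
      rw [Finset.not_nonempty_iff_eq_empty, Finset.filter_eq_empty_iff] at hcon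
      apply hm
      funext i
      have := hcon (Finset.mem_univ i)
      simpa using this
    obtain ⟨i0, h1, h2⟩ := Finset.exists_min_image _ x hne
    refine ⟨i0, (Finset.mem_filter.1 h1).2, fun i hi => h2 i ?_⟩
    exact Finset.mem_filter.2 ⟨Finset.mem_univ _, hi⟩
  set t0 : ℝ := -(x i0) / c with ht0
  set U : Set ℝ := Set.Ioi t0 with hU
  set G : ℝ → ℝ := fun t => ∑ i, m i * ((√(x i + c * t)) ^ 3)⁻¹ with hG
  have hpos : ∀ i, m i ≠ 0 → ∀ t ∈ U, 0 < x i + c * t := by
    intro i hi t ht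
    have h1 := hmin i hi
    have h2 : t0 < t := ht
    rw [ht0, div_lt_iff₀ hc] at h2
    nlinarith
  have han : AnalyticOnNhd ℝ G U := by
    intro t ht
    refine Finset.analyticAt_fun_sum _ fun i _ => ?_
    by_cases hi : m i = 0
    · simp only [hi, zero_mul]
      exact analyticAt_const
    · have h1 := hpos i hi t ht
      refine analyticAt_const.mul (AnalyticAt.inv (AnalyticAt.pow ?_ 3) (by positivity))
      have h2 : AnalyticAt ℝ (fun s : ℝ => x i + c * s) t :=
        analyticAt_const.add (analyticAt_const.mul analyticAt_id)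
      exact AnalyticAt.fun_comp (g := fun s : ℝ => √s) (f := fun s : ℝ => x i + c * s)
        (analyticAt_sqrt h1) h2
  obtain ⟨a, ha, hacc⟩ := Set.Infinite.exists_accPt_of_subset_isCompact hinf isCompact_Icc
    (fun t ht => ht.1)
  have haU : a ∈ U := by
    have h1 : t0 < 0 := by
      rw [ht0]; exact div_neg_of_neg_of_pos (by linarith [hx i0]) hc
    exact lt_of_lt_of_le h1 ha.1
  have hfr : ∃ᶠ t in 𝓝[≠] a, G t = 0 := by
    rw [accPt_iff_frequently_nhdsNE] at hacc
    exact hacc.mono fun t ht => ht.2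
  have hzero := han.eqOn_zero_of_preconnected_of_frequently_eq_zero isPreconnected_Ioi haU hfr
  -- the limit at the left end
  set h : ℝ → ℝ := fun t => ∑ i, m i * (√(x i0 + c * t) / √(x i + c * t)) ^ 3 with hh
  have h0 : ∀ t ∈ U, h t = 0 := by
    intro t ht
    have h1 : h t = (√(x i0 + c * t)) ^ 3 * G t := by
      simp only [hh, hG]
      rw [Finset.mul_sum]
      refine Finset.sum_congr rfl fun i _ => ?_
      rw [div_pow, div_eq_mul_inv]
      ring
    rw [h1, hzero ht]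
    simp
  have hlim : Tendsto h (𝓝[>] t0) (𝓝 (m i0)) := by
    have h1 : m i0 = ∑ i, if i = i0 then m i0 else 0 := by simp
    rw [h1]
    refine tendsto_finsetSum _ fun i _ => ?_
    by_cases hi : i = i0
    · subst hi
      rw [if_pos rfl]
      refine tendsto_const_nhds.congr' ?_
      filter_upwards [self_mem_nhdsWithin] with t ht
      have h2 := hpos i hi0 t ht
      rw [div_self (Real.sqrt_pos.2 h2).ne', one_pow, mul_one]
    · rw [if_neg hi]
      by_cases hmi : m i = 0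
      · simp only [hmi, zero_mul]
        exact tendsto_const_nhds
      · have h2 : x i0 < x i := lt_of_le_of_ne (hmin i hmi) fun h => hi (hinj h.symm)
        have h3 : x i0 + c * t0 = 0 := by
          rw [ht0]; field_simp; ring
        have h4 : 0 < x i + c * t0 := by linarith
        have h5 : ContinuousAt (fun t => m i * (√(x i0 + c * t) / √(x i + c * t)) ^ 3) t0 := by
          have h6 : √(x i + c * t0) ≠ 0 := (Real.sqrt_pos.2 h4).ne'
          fun_prop (disch := exact h6)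
        have h6 : Tendsto (fun t => m i * (√(x i0 + c * t) / √(x i + c * t)) ^ 3) (𝓝[>] t0)
            (𝓝 (m i * (√(x i0 + c * t0) / √(x i + c * t0)) ^ 3)) :=
          h5.tendsto.mono_left nhdsWithin_le_nhds
        rw [h3, Real.sqrt_zero, zero_div] at h6
        simpa using h6
  have hlim0 : Tendsto h (𝓝[>] t0) (𝓝 0) := by
    refine tendsto_const_nhds.congr' ?_
    filter_upwards [self_mem_nhdsWithin] with t ht
    exact (h0 t ht).symm
  exact hi0 (tendsto_nhds_unique hlim hlim0)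

end Pool.Agent.Helper5.PE
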