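import Pool.Agent.Helper5.NE.Near

/-! Linear images of processes of positive entropy: the conditional expectations tend to zero
for every multiplier which is not a Liouville number. -/

open MeasureTheory Filter Topology

namespace Pool.Agent.Helper5.PE

open Pool.Agent.Helper5.KM Pool.Agent.Helper5.NE
open Pool.Agent.Helper49.KM (ent_small ent_pos subadd approx decode num_lt num_inj
  norm_e_sub_one_ge)
open Pool.Agent.Helper6.NE (wlim)

variable {b : ℕ}

/-- unimodular numbers: powers -/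
theorem norm_e_nsmul_sub (m : ℕ) (s t : ℝ) : ‖e (m * s) - e (m * t)‖ ≤ m * ‖e s - e t‖ := by
  induction m with
  | zero => simp
  | succ m ih =>
    have h1 : e (((m + 1 : ℕ) : ℝ) * s) = e (m * s) * e s := by rw [← e_add]; push_cast; ring_nf
    have h2 : e (((m + 1 : ℕ) : ℝ) * t) = e (m * t) * e t := by rw [← e_add]; push_cast; ring_nf
    rw [h1, h2]
    have h3 : e (m * s) * e s - e (m * t) * e t =
        (e (m * s) - e (m * t)) * e s + e (m * t) * (e s - e t) := by ring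
    rw [h3]
    refine (norm_add_le _ _).trans ?_
    rw [norm_mul, norm_mul, norm_e, norm_e, mul_one, one_mul]
    push_cast
    linarith

theorem not_lower_bound (hb : 2 ≤ b) {μ : Measure (Sq b)} [IsProbabilityMeasure μ]
    (h : EProc b μ) (X : ℝ) (hX : Dio X) (q : Sq b → ℂ) (hq : StronglyMeasurable[past b 0] q)
    (hq1 : ∀ y, ‖q y‖ ≤ 1) (a₀ : ℝ) (ha₀ : 0 < a₀) (ha : ∀ l, a₀ ≤ ∫ y, ‖Qf μ X q l y‖ ^ 2 ∂μ) :
    False := by
  classical
  have hst : MeasurePreserving (sh 1) μ μ := h.erg.toMeasurePreserving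
  have hb0 : (0 : ℝ) < b := by exact_mod_cast (by omega : 0 < b)
  have hb1 : (1 : ℝ) < b := by exact_mod_cast (by omega : 1 < b)
  have hb2 : (2 : ℝ) ≤ b := by exact_mod_cast hb
  obtain ⟨c, hc, κ0, hD0⟩ := hX
  obtain ⟨κ, hκ, hD⟩ : ∃ κ : ℕ, 1 ≤ κ ∧ ∀ D : ℕ, 0 < D → ∀ p : ℤ,
      c / (D : ℝ) ^ κ ≤ |X * D - p| := by
    refine ⟨κ0 + 1, by omega, fun D hD p => le_trans ?_ (hD0 D hD p)⟩
    have h1 : (1 : ℝ) ≤ D := by exact_mod_cast hD
    exact div_le_div_of_nonneg_left hc.le (by positivity) (pow_le_pow_right₀ h1 (by omega))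
  obtain ⟨c0, hc0, hpos⟩ := ent_pos hst h.pos
  set H : ℕ → ℝ := fun n => ent μ (blk 0 n : Sq b → _) with hH
  have hs : ∀ m n, H (m + n) ≤ H m + H n := by
    intro m n
    have := ent_det2 hst m 0 n 0 0 0 0 (fun k => k.elim0) (fun k => k.elim0)
      (fun k => k.elim0) (fun k => k.elim0) (fun y y' _ _ _ _ => funext fun i => i.elim0)
    simpa using this
  obtain ⟨hh, hhc, hlim, hinc⟩ := subadd H (fun n => ent_nonneg _) hs c0 hc0 hpos
  have hh0 : 0 < hh := lt_of_lt_of_le hc0 hhc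
  obtain ⟨A, hA, hA0, hUall⟩ := unim hst X q hq hq1 (wlim hst X q hq hq1) a₀ ha₀ ha
  have hAm : MeasurableSet A := (past_le _) _ (hA 0)
  set δ : ℝ := hh / (8 * (κ + 1)) with hδ
  have hδ0 : 0 < δ := by positivity
  -- the uncovered places
  obtain ⟨p', hp', hsmall'⟩ := ent_small (7 * b) δ hδ0
  obtain ⟨R, hR⟩ := gap h.erg A hAm hA0 (p' / 2) (by positivity)
  have hR := hR R le_rfl
  set M : ℕ := 2 * b ^ (R + 2) with hMdef
  have hM : 0 < M := by positivity
  have hM7 : 0 < 7 * b := by omega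
  obtain ⟨p, hp, hsmall⟩ := ent_small M δ hδ0
  set τ : ℝ := 1 / (b : ℝ) ^ (R + 2) with hτ
  have hτ0 : 0 < τ := by positivity
  set ε : ℝ := p * τ / 8 with hε
  have hε0 : 0 < ε := by positivity
  obtain ⟨l, U, hU, h1, hall⟩ := hUall ε hε0
  have hUm : ∀ k, Measurable (U k) := fun k => (hU k).measurable.mono (past_le 0) le_rfl
  obtain ⟨L, hL⟩ := approx (μ := μ) (U 0) (hU 0) (h1 0) ε hε0
  obtain ⟨g, hg1, hg⟩ := hL L le_rfl
  -- the constant `C`
  obtain ⟨C, hC⟩ : ∃ C : ℕ, 1 < c * (b : ℝ) ^ C := by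
    obtain ⟨C, hC⟩ := pow_unbounded_of_one_lt (1 / c) hb1
    exact ⟨C, by rwa [div_lt_iff₀ hc, mul_comm] at hC⟩
  -- choice of `K'`
  set L2 : ℕ := L + R with hL2
  set KK : ℕ → ℕ := fun K' => κ * (l + L2 + K') + L2 + (C + 1) with hKK
  have hKKtop : Tendsto KK atTop atTop := by
    refine tendsto_atTop_mono (fun K' => ?_) tendsto_id
    simp only [hKK, id]
    nlinarith
  obtain ⟨K', hK'1, hK'2, hK'3⟩ : ∃ K' : ℕ, (KK K' : ℝ) ≤ (κ + 1) * K' ∧
      H (KK K') ≤ (hh + δ) * KK K' ∧ 2 / hh < K' := by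
    have e1 : ∀ᶠ K' : ℕ in atTop, (KK K' : ℝ) ≤ (κ + 1) * K' := by
      filter_upwards [eventually_ge_atTop (κ * (l + L2) + L2 + (C + 1))] with K' hK'
      have : KK K' ≤ (κ + 1) * K' := by simp only [hKK]; nlinarith
      exact_mod_cast this
    have e2 : ∀ᶠ K' : ℕ in atTop, H (KK K') ≤ (hh + δ) * KK K' := by
      have h2 := (hlim.comp hKKtop).eventually (gt_mem_nhds (show hh < hh + δ by linarith))
      filter_upwards [h2] with K' hK'
      have h3 : (0 : ℝ) < KK K' := by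
        have : 0 < KK K' := by simp only [hKK]; omega
        exact_mod_cast this
      simp only [Function.comp] at hK'
      rw [div_lt_iff₀ h3] at hK'
      exact hK'.le
    have e3 : ∀ᶠ K' : ℕ in atTop, 2 / hh < (K' : ℝ) :=
      tendsto_natCast_atTop_atTop.eventually (eventually_gt_atTop (2 / hh))
    obtain ⟨K', h⟩ := (e1.and (e2.and e3)).exists
    exact ⟨K', h.1, h.2.1, h.2.2⟩
  set K : ℕ := KK K' with hK
  have hLK2 : L2 < K := by rw [hK, hKK]; simp only; omega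
  have hLK : L < K := by omega
  have hKc : (b : ℝ) ^ (κ * (l + L2 + K')) < c * (b : ℝ) ^ (K - L2 - 1) := by
    have : K - L2 - 1 = C + κ * (l + L2 + K') := by rw [hK, hKK]; simp only; omega
    rw [this, pow_add, ← mul_assoc]
    exact (lt_mul_iff_one_lt_left (by positivity)).2 hC
  set εS : ℝ := min (p / 2) (p' / (2 * (R + 1))) with hεS
  have hεS0 : 0 < εS := by
    rw [hεS]; exact lt_min (by positivity) (by positivity)
  -- approximation of the other `U k` and of the sets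
  have happ : ∀ k : ℕ, ∃ n0 : ℕ, ∀ n ≥ n0, ∃ g : (Fin n → Fin b) → ℂ, (∀ w, ‖g w‖ = 1) ∧
      ∫ y, ‖U k y - g (blk (-(n : ℤ)) n y)‖ ∂μ ≤ ε := fun k => approx (U k) (hU k) (h1 k) ε hε0
  choose N0 hN0 using happ
  set 𝒜 : ℕ → Set (Sq b) := fun k => {y | sh ((l + k + K' : ℕ) : ℤ) y ∈ A} with h𝒜
  have h𝒜p : ∀ k, MeasurableSet[past b 0] (𝒜 k) := fun k =>
    measurableSet_sh_past (hA (l + k + K')) le_rfl
  have h𝒜m : ∀ k, MeasurableSet (𝒜 k) := fun k => (past_le _) _ (h𝒜p k)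
  choose N1 hN1 using fun k => set_approx (μ := μ) (𝒜 k) (h𝒜p k) εS hεS0
  obtain ⟨n, hn, hnH⟩ := hinc (K' + K) (max ((Finset.range (K + K')).sup N0)
    ((Finset.range K).sup N1)) 1 one_pos
  have hn0 : (Finset.range (K + K')).sup N0 ≤ n := (le_max_left _ _).trans hn
  have hn1 : (Finset.range K).sup N1 ≤ n := (le_max_right _ _).trans hn
  have hn'' : ∀ k, ∃ g : (Fin n → Fin b) → ℂ, (∀ w, ‖g w‖ = 1) ∧
      (k < K → ∫ y, ‖U (k + K') y - g (blk (-(n : ℤ)) n y)‖ ∂μ ≤ ε) := by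
    intro k
    by_cases hk : k < K
    · obtain ⟨g, h1, h2⟩ := hN0 (k + K') n
        ((Finset.le_sup (f := N0) (Finset.mem_range.2 (by omega))).trans hn0)
      exact ⟨g, h1, fun _ => h2⟩
    · exact ⟨fun _ => 1, fun _ => norm_one, fun h => absurd h hk⟩
  choose G hG1 hG using hn''
  have hs'' : ∀ k, ∃ S : Set (Fin n → Fin b),
      (k < K → μ.real (symmDiff (𝒜 k) {y | blk (-(n : ℤ)) n y ∈ S}) ≤ εS) := by
    intro k
    by_cases hk : k < K
    · obtain ⟨S, hS⟩ := hN1 k n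
        ((Finset.le_sup (f := N1) (Finset.mem_range.2 hk)).trans hn1)
      exact ⟨S, fun _ => hS⟩
    · exact ⟨∅, fun h => absurd h hk⟩
  choose S hS using hs''
  -- the predictions and the corrections
  set θ : ℕ → Sq b → ℝ := fun k y => (b : ℝ) ^ (l + k) * X * num (blk 0 K' y) with hθ
  set ρ : ℕ → Sq b → ℂ := fun k y => G k (blk (-(n : ℤ)) n y) *
    (starRingEnd ℂ) (e ((b : ℝ) ^ l * X * num (blk K' k y)) * g (blk (k + K' - L) L y)) with hρ
  have hfin : ∀ (β : Type) [MeasurableSpace β] (s : ℤ) (m : ℕ) (F : (Fin m → Fin b) → β),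
      Measurable (fun y : Sq b => F (blk s m y)) := fun β _ s m F =>
    (measurable_of_finite F).comp (measurable_blk s m)
  have hρm : ∀ k, Measurable (ρ k) := by
    intro k
    refine (hfin ℂ _ n (G k)).mul (Complex.continuous_conj.measurable.comp ?_)
    exact (hfin ℂ _ k (fun w => e ((b : ℝ) ^ l * X * num w))).mul (hfin ℂ _ L g)
  have hθm : ∀ k, Measurable (θ k) := fun k =>
    hfin ℝ _ K' (fun w => (b : ℝ) ^ (l + k) * X * num w)
  have hρ1 : ∀ k y, ‖ρ k y‖ = 1 := by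
    intro k y
    simp only [hρ]
    rw [norm_mul, hG1, one_mul, RCLike.norm_conj, norm_mul, norm_e, hg1, one_mul]
  have hint : ∀ f : Sq b → ℂ, Measurable f → (∀ y, ‖f y‖ ≤ 2) → Integrable (fun y => ‖f y‖) μ :=
    fun f hf hf2 => integrable_of_bdd hf.norm 2 (fun y => by rw [abs_norm]; exact hf2 y)
  have hsub2 : ∀ z w : ℂ, ‖z‖ = 1 → ‖w‖ = 1 → ‖z - w‖ ≤ 2 := fun z w hz hw =>
    (norm_sub_le z w).trans (by rw [hz, hw]; norm_num)
  have hset : ∀ (B : Set (Sq b)) (f : Sq b → ℂ), Measurable f → (∀ y, ‖f y‖ ≤ 2) →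
      ∫ y in B, ‖f y‖ ∂μ ≤ ∫ y, ‖f y‖ ∂μ := fun B f hf hf2 =>
    setIntegral_le_integral (hint f hf hf2) (Eventually.of_forall fun y => norm_nonneg _)
  have hest : ∀ k, L ≤ k → k < K → ∫ y in 𝒜 k, ‖e (θ k y) - ρ k y‖ ∂μ ≤ 4 * ε := by
    intro k hk1 hk2
    set A1 : Sq b → ℂ := fun y => g (blk (k + K' - L) L y) - U 0 (sh k (sh K' y)) with hA1
    set A2 : Sq b → ℂ := fun y => e ((b : ℝ) ^ l * X * num (blk K' k y)) * U 0 (sh k (sh K' y)) -
      U k (sh K' y) with hA2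
    set A3 : Sq b → ℂ := fun y => e (θ k y) * U k (sh K' y) - U (k + K') y with hA3
    set A4 : Sq b → ℂ := fun y => U (k + K') y - G k (blk (-(n : ℤ)) n y) with hA4
    have m1 : Measurable A1 := (hfin ℂ _ L g).sub
      ((hUm 0).comp ((measurable_sh _).comp (measurable_sh _)))
    have m2 : Measurable A2 := ((hfin ℂ _ k (fun w => e ((b : ℝ) ^ l * X * num w))).mul
      ((hUm 0).comp ((measurable_sh _).comp (measurable_sh _)))).sub
      ((hUm k).comp (measurable_sh _))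
    have m3 : Measurable A3 := ((measurable_e.comp (hθm k)).mul
      ((hUm k).comp (measurable_sh _))).sub (hUm _)
    have m4 : Measurable A4 := (hUm _).sub (hfin ℂ _ n (G k))
    have b1 : ∀ y, ‖A1 y‖ ≤ 2 := fun y => hsub2 _ _ (hg1 _) (h1 _ _)
    have b2 : ∀ y, ‖A2 y‖ ≤ 2 := fun y => hsub2 _ _ (by rw [norm_mul, norm_e, h1, one_mul]) (h1 _ _)
    have b3 : ∀ y, ‖A3 y‖ ≤ 2 := fun y => hsub2 _ _ (by rw [norm_mul, norm_e, h1, one_mul]) (h1 _ _)
    have b4 : ∀ y, ‖A4 y‖ ≤ 2 := fun y => hsub2 _ _ (h1 _ _) (hG1 _ _)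
    have i1 : ∫ y in 𝒜 k, ‖A1 y‖ ∂μ ≤ ε := by
      refine (hset _ _ m1 b1).trans ?_
      have e1 : ∫ y, ‖A1 y‖ ∂μ = ∫ y, ‖g (blk (-(L : ℤ)) L y) - U 0 y‖ ∂μ := by
        have e2 := (mp_sh hst ((k : ℤ) + K')).integral_comp
          (shEquiv (b := b) ((k : ℤ) + K')).measurableEmbedding
          (fun y => ‖g (blk (-(L : ℤ)) L y) - U 0 y‖)
        rw [← e2]
        refine integral_congr_ae (Eventually.of_forall fun y => ?_)
        simp only [hA1]
        rw [blk_sh, sh_sh]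
        congr 3
        ring_nf
      rw [e1]
      simpa only [norm_sub_rev] using hg
    have i2 : ∫ y in 𝒜 k, ‖A2 y‖ ∂μ ≤ ε := by
      have e2 := (mp_sh hst (K' : ℤ)).setIntegral_preimage_emb
          (shEquiv (b := b) (K' : ℤ)).measurableEmbedding
          (fun y => ‖e ((b : ℝ) ^ (l + 0) * X * Bk k y) * U 0 (sh k y) - U (0 + k) y‖)
          {y | sh ((l + 0 + k : ℕ) : ℤ) y ∈ A}
      have e3 : (sh (K' : ℤ)) ⁻¹' {y | sh ((l + 0 + k : ℕ) : ℤ) y ∈ A} = 𝒜 k := by
        ext y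
        simp only [Set.mem_preimage, Set.mem_ofPred_eq, h𝒜, sh_sh]
        rw [show (((l + 0 + k : ℕ) : ℤ) + (K' : ℤ)) = ((l + k + K' : ℕ) : ℤ) by push_cast; ring]
      rw [e3] at e2
      have e1 : ∫ y in 𝒜 k, ‖A2 y‖ ∂μ = ∫ y in {y | sh ((l + 0 + k : ℕ) : ℤ) y ∈ A},
          ‖e ((b : ℝ) ^ (l + 0) * X * Bk k y) * U 0 (sh k y) - U (0 + k) y‖ ∂μ := by
        rw [← e2]
        refine integral_congr_ae (Eventually.of_forall fun y => ?_)
        simp only [hA2]
        rw [Bk_eq_num, blk_sh, add_zero, zero_add, zero_add]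
      rw [e1]
      exact hall 0 k
    have i3 : ∫ y in 𝒜 k, ‖A3 y‖ ∂μ ≤ ε := by
      have := hall k K'
      simp only [Bk_eq_num] at this
      exact this
    have i4 : ∫ y in 𝒜 k, ‖A4 y‖ ∂μ ≤ ε := (hset _ _ m4 b4).trans (hG k hk2)
    have n1 := (hint _ m1 b1).integrableOn (s := 𝒜 k)
    have n2 := (hint _ m2 b2).integrableOn (s := 𝒜 k)
    have n3 := (hint _ m3 b3).integrableOn (s := 𝒜 k)
    have n4 := (hint _ m4 b4).integrableOn (s := 𝒜 k)
    have j1 : IntegrableOn (fun y => ‖A1 y‖ + ‖A2 y‖) (𝒜 k) μ := n1.add n2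
    have j2 : IntegrableOn (fun y => ‖A1 y‖ + ‖A2 y‖ + ‖A3 y‖) (𝒜 k) μ := j1.add n3
    have j3 : IntegrableOn (fun y => ‖A1 y‖ + ‖A2 y‖ + ‖A3 y‖ + ‖A4 y‖) (𝒜 k) μ := j2.add n4
    calc ∫ y in 𝒜 k, ‖e (θ k y) - ρ k y‖ ∂μ
        ≤ ∫ y in 𝒜 k, (‖A1 y‖ + ‖A2 y‖ + ‖A3 y‖ + ‖A4 y‖) ∂μ := by
          refine integral_mono (hint _ ((measurable_e.comp (hθm k)).sub (hρm k))
            (fun y => hsub2 _ _ (norm_e _) (hρ1 _ _))).integrableOn j3 (fun y => ?_)
          exact norm_four (norm_e _) (norm_e _) (hg1 _)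
      _ = ∫ y in 𝒜 k, ‖A1 y‖ ∂μ + ∫ y in 𝒜 k, ‖A2 y‖ ∂μ + ∫ y in 𝒜 k, ‖A3 y‖ ∂μ +
          ∫ y in 𝒜 k, ‖A4 y‖ ∂μ := by
          rw [integral_add j2 n4, integral_add j1 n3, integral_add n1 n2]
      _ ≤ 4 * ε := by linarith
  set V : Fin (K - L) → Sq b → Fin (M + 1) := fun i y =>
    if blk (-(n : ℤ)) n y ∉ S (L + i) ∨ ‖e (θ (L + i) y) - ρ (L + i) y‖ ≤ τ then 0
    else arc M (θ (L + i) y) with hV
  have hVm : ∀ i, Measurable (V i) := by
    intro i
    refine Measurable.ite ?_ measurable_const ?_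
    · refine MeasurableSet.union ?_ ?_
      · exact (measurable_blk _ _ (Set.toFinite (S (L + i))ᶜ).measurableSet)
      · exact measurableSet_le (((measurable_e.comp (hθm _)).sub (hρm _)).norm) measurable_const
    · exact hfin _ _ K' (fun w => arc M ((b : ℝ) ^ (l + (L + (i : ℕ))) * X * num w))
  have hVs : ∀ i, ent μ (V i) ≤ δ := by
    intro i
    refine hsmall b μ (V i) (hVm i) ?_
    set k := L + (i : ℕ) with hk
    have hi : (i : ℕ) < K - L := i.2
    have h2 := hest k (by omega) (by omega)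
    have hDm : Measurable (fun y => ‖e (θ k y) - ρ k y‖) :=
      ((measurable_e.comp (hθm k)).sub (hρm k)).norm
    have h3 : {y | V i y ≠ 0} ⊆ symmDiff (𝒜 k) {y | blk (-(n : ℤ)) n y ∈ S k} ∪
        ({y | τ ≤ ‖e (θ k y) - ρ k y‖} ∩ 𝒜 k) := by
      intro y hy
      simp only [hV, Set.mem_ofPred_eq, ne_eq, ite_eq_left_iff, not_or, not_not, not_le,
        Classical.not_imp, ← hk] at hy
      by_cases hyA : y ∈ 𝒜 k
      · exact Or.inr ⟨hy.1.2.le, hyA⟩
      · exact Or.inl (Or.inr ⟨hy.1.1, hyA⟩)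
    have h4 := mul_meas_ge_le_integral_of_nonneg (μ := μ.restrict (𝒜 k))
      (f := fun y => ‖e (θ k y) - ρ k y‖) (Eventually.of_forall fun y => norm_nonneg _)
      (hint _ ((measurable_e.comp (hθm k)).sub (hρm k))
            (fun y => hsub2 _ _ (norm_e _) (hρ1 _ _))).integrableOn τ
    have h4' : (μ.restrict (𝒜 k)).real {y | τ ≤ ‖e (θ k y) - ρ k y‖} =
        μ.real ({y | τ ≤ ‖e (θ k y) - ρ k y‖} ∩ 𝒜 k) := by
      rw [measureReal_restrict_apply (measurableSet_le measurable_const hDm)]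
    rw [h4'] at h4
    have h6 : τ * μ.real ({y | τ ≤ ‖e (θ k y) - ρ k y‖} ∩ 𝒜 k) ≤ 4 * ε := h4.trans h2
    have h7 : 4 * ε = τ * (p / 2) := by rw [hε]; ring
    rw [h7] at h6
    have h8 := le_of_mul_le_mul_left h6 hτ0
    have h9 : μ.real (symmDiff (𝒜 k) {y | blk (-(n : ℤ)) n y ∈ S k}) ≤ p / 2 :=
      (hS k (by omega)).trans (min_le_left _ _)
    calc μ.real {y | V i y ≠ 0} ≤ μ.real (symmDiff (𝒜 k) {y | blk (-(n : ℤ)) n y ∈ S k} ∪
        ({y | τ ≤ ‖e (θ k y) - ρ k y‖} ∩ 𝒜 k)) := measureReal_mono h3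
      _ ≤ _ := measureReal_union_le _ _
      _ ≤ p := by linarith
  -- the uncovered places
  set cov : ℕ → (Fin n → Fin b) → Prop := fun k w => ∃ j, L ≤ j ∧ j < K ∧ w ∈ S j ∧
    j ≤ k ∧ k < j + R with hcov
  set W : Fin (K - L2) → Sq b → Fin (7 * b + 1) := fun i y =>
    if cov (L2 + i) (blk (-(n : ℤ)) n y) then 0 else arc (7 * b) (θ (L2 + i) y) with hW
  have hWm : ∀ i, Measurable (W i) := by
    intro i
    refine Measurable.ite ?_ measurable_const ?_
    · exact (measurable_blk _ _ (Set.toFinite {w | cov (L2 + i) w}).measurableSet)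
    · exact hfin _ _ K' (fun w => arc (7 * b) ((b : ℝ) ^ (l + (L2 + (i : ℕ))) * X * num w))
  have hWs : ∀ i, ent μ (W i) ≤ δ := by
    intro i
    refine hsmall' b μ (W i) (hWm i) ?_
    set k := L2 + (i : ℕ) with hk
    have hi : (i : ℕ) < K - L2 := i.2
    have h3 : {y | W i y ≠ 0} ⊆ (sh ((l + k + K' : ℕ) : ℤ) ⁻¹'
        {y | ∀ i : ℕ, i < R → sh (-(i : ℤ)) y ∉ A}) ∪
        ⋃ j ∈ Finset.Ioc (k - R) k, symmDiff (𝒜 j) {y | blk (-(n : ℤ)) n y ∈ S j} := by
      intro y hy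
      by_contra hcon
      apply hy
      simp only [hW]
      refine if_pos ?_
      simp only [Set.mem_union, not_or, Set.mem_preimage, Set.mem_ofPred_eq, not_forall, not_not,
        Set.mem_iUnion, Finset.mem_Ioc, not_exists] at hcon
      obtain ⟨⟨i', hi', hiA⟩, h5⟩ := hcon
      have h6 := h5 (k - i') ⟨by omega, by omega⟩
      have h7 : y ∈ 𝒜 (k - i') := by
        simp only [h𝒜, Set.mem_ofPred_eq]
        rw [sh_sh] at hiA
        have : ((l + (k - i') + K' : ℕ) : ℤ) = -(i' : ℤ) + ((l + k + K' : ℕ) : ℤ) := by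
          push_cast [Nat.cast_sub (show i' ≤ k by omega)]; ring
        rw [this]; exact hiA
      refine ⟨k - i', by omega, by omega, ?_, by omega, by omega⟩
      by_contra h8
      exact h6 (Or.inl ⟨h7, h8⟩)
    have h4 : μ.real (sh ((l + k + K' : ℕ) : ℤ) ⁻¹'
        {y | ∀ i : ℕ, i < R → sh (-(i : ℤ)) y ∉ A}) ≤ p' / 2 := by
      have hBm : MeasurableSet {y : Sq b | ∀ i : ℕ, i < R → sh (-(i : ℤ)) y ∉ A} := by
        have : {y : Sq b | ∀ i : ℕ, i < R → sh (-(i : ℤ)) y ∉ A} =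
            ⋂ i : ℕ, ⋂ (_ : i < R), {y : Sq b | sh (-(i : ℤ)) y ∉ A} := by
          ext y; simp
        rw [this]
        exact MeasurableSet.iInter fun i => MeasurableSet.iInter fun _ =>
          (measurable_sh _ hAm).compl
      rw [(mp_sh hst _).measureReal_preimage hBm.nullMeasurableSet]
      exact hR
    have h5 : μ.real (⋃ j ∈ Finset.Ioc (k - R) k,
        symmDiff (𝒜 j) {y | blk (-(n : ℤ)) n y ∈ S j}) ≤ p' / 2 := by
      refine (measureReal_biUnion_finset_le _ _).trans ?_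
      refine (Finset.sum_le_card_nsmul _ _ (p' / (2 * (R + 1))) fun j hj => ?_).trans ?_
      · rw [Finset.mem_Ioc] at hj
        exact (hS j (by omega)).trans (min_le_right _ _)
      · rw [nsmul_eq_mul, Nat.card_Ioc]
        have h6 : ((k - (k - R) : ℕ) : ℝ) ≤ R := by
          have : k - (k - R) ≤ R := by omega
          exact_mod_cast this
        calc ((k - (k - R) : ℕ) : ℝ) * (p' / (2 * (R + 1)))
            ≤ (R + 1) * (p' / (2 * (R + 1))) :=
              mul_le_mul_of_nonneg_right (by linarith) (by positivity)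
          _ = p' / 2 := by field_simp
    calc μ.real {y | W i y ≠ 0} ≤ _ := measureReal_mono h3
      _ ≤ _ := measureReal_union_le _ _
      _ ≤ p' := by linarith
  have hdet : ∀ y y', blk (-(n : ℤ)) n y = blk (-(n : ℤ)) n y' → blk K' K y = blk K' K y' →
      (∀ k, V k y = V k y') → (∀ k, W k y = W k y') → blk 0 K' y = blk 0 K' y' := by
    intro y y' hPP hF hVV hWW
    have hF' := blk_eq_iff.1 hF
    have hclose : ∀ k, L ≤ k → k < K → blk (-(n : ℤ)) n y ∈ S k →
        ‖e (θ k y) - e (θ k y')‖ ≤ 4 * τ := by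
      intro k hk1 hk2 hkS
      have hρe : ρ k y = ρ k y' := by
        simp only [hρ]
        have e1 : blk K' k y = blk K' k y' := blk_eq_iff.2 fun i hi => hF' i (by omega)
        have e2 : blk ((k : ℤ) + K' - L) L y = blk ((k : ℤ) + K' - L) L y' :=
          blk_eq_iff.2 fun i hi => by
            have := hF' (k - L + i) (by omega)
            have e3 : (K' : ℤ) + ((k - L + i : ℕ) : ℤ) = (k : ℤ) + K' - L + i := by
              push_cast [Nat.cast_sub hk1]; ring
            rwa [e3] at this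
        rw [hPP, e1, e2]
      have hVk := hVV ⟨k - L, by omega⟩
      simp only [hV] at hVk
      have hkk : L + (k - L) = k := by omega
      rw [hkk] at hVk
      have hkS' : blk (-(n : ℤ)) n y' ∈ S k := hPP ▸ hkS
      by_cases c1 : ‖e (θ k y) - ρ k y‖ ≤ τ
      · by_cases c2 : ‖e (θ k y') - ρ k y'‖ ≤ τ
        · have e4 : e (θ k y) - e (θ k y') = (e (θ k y) - ρ k y) - (e (θ k y') - ρ k y') := by
            rw [hρe]; ring
          rw [e4]
          refine (norm_sub_le _ _).trans ((add_le_add c1 c2).trans ?_)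
          linarith
        · rw [if_pos (Or.inr c1), if_neg (by rintro (h | h); exacts [h hkS', c2 h])] at hVk
          exact absurd hVk.symm (arc_ne_zero hM _)
      · by_cases c2 : ‖e (θ k y') - ρ k y'‖ ≤ τ
        · rw [if_neg (by rintro (h | h); exacts [h hkS, c1 h]), if_pos (Or.inr c2)] at hVk
          exact absurd hVk (arc_ne_zero hM _)
        · rw [if_neg (by rintro (h | h); exacts [h hkS, c1 h]),
            if_neg (by rintro (h | h); exacts [h hkS', c2 h])] at hVk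
          refine (arc_close hM hVk).trans ?_
          rw [hMdef, hτ]
          push_cast
          rw [mul_one_div, div_le_div_iff₀ (by positivity) (by positivity)]
          have : (0 : ℝ) < (b : ℝ) ^ (R + 2) := by positivity
          nlinarith [Real.pi_lt_d2]
    refine decode hb X c κ hc hD l L2 K' K hLK2 hKc _ _ (fun k hk1 hk2 => ?_)
    show ‖e (θ k y) - e (θ k y')‖ ≤ 1 / b
    by_cases hck : cov k (blk (-(n : ℤ)) n y)
    · obtain ⟨j, hj1, hj2, hjS, hj3, hj4⟩ := hck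
      have h2 := hclose j hj1 hj2 hjS
      have h3 : ∀ z : Sq b, θ k z = ((b ^ (k - j) : ℕ) : ℝ) * θ j z := by
        intro z
        simp only [hθ]
        push_cast
        rw [show l + k = (k - j) + (l + j) by omega, pow_add]
        ring
      rw [h3, h3]
      refine (norm_e_nsmul_sub _ _ _).trans ?_
      have h4 : (b : ℝ) ^ (k - j) * (b : ℝ) ^ 3 ≤ (b : ℝ) ^ (R + 2) := by
        rw [← pow_add]
        exact pow_le_pow_right₀ hb1.le (by omega)
      have h5 : (0 : ℝ) < (b : ℝ) ^ (R + 2) := by positivity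
      calc ((b ^ (k - j) : ℕ) : ℝ) * ‖e (θ j y) - e (θ j y')‖
          ≤ (b : ℝ) ^ (k - j) * (4 * τ) := by
            push_cast
            exact mul_le_mul_of_nonneg_left h2 (by positivity)
        _ = 4 * (b : ℝ) ^ (k - j) / (b : ℝ) ^ (R + 2) := by
            rw [hτ]; ring
        _ ≤ 1 / b := by
            rw [div_le_div_iff₀ h5 hb0, one_mul]
            have h6 : 4 * (b : ℝ) ^ (k - j) * b ≤ (b : ℝ) ^ (k - j) * (b : ℝ) ^ 3 := by
              have h7 : (0 : ℝ) < (b : ℝ) ^ (k - j) := by positivity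
              have h9 : (4 : ℝ) ≤ (b : ℝ) ^ 2 := by nlinarith
              have h8 : 4 * (b : ℝ) ≤ (b : ℝ) ^ 3 := by
                have : (b : ℝ) ^ 3 = (b : ℝ) ^ 2 * b := by ring
                rw [this]
                exact mul_le_mul_of_nonneg_right h9 hb0.le
              calc 4 * (b : ℝ) ^ (k - j) * b = (b : ℝ) ^ (k - j) * (4 * b) := by ring
                _ ≤ (b : ℝ) ^ (k - j) * (b : ℝ) ^ 3 := mul_le_mul_of_nonneg_left h8 h7.le
            exact h6.trans h4
    · have hck' : ¬ cov k (blk (-(n : ℤ)) n y') := hPP ▸ hck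
      have hWk := hWW ⟨k - L2, by omega⟩
      simp only [hW] at hWk
      have hkk : L2 + (k - L2) = k := by omega
      rw [hkk, if_neg hck, if_neg hck'] at hWk
      refine (arc_close hM7 hWk).trans ?_
      push_cast
      rw [div_le_div_iff₀ (by positivity) hb0]
      nlinarith [Real.pi_lt_d2]
  have hmain := ent_det2 hst n K' K (K - L) M (K - L2) (7 * b) V hVm W hWm hdet
  have hsum : ∑ k, ent μ (V k) ≤ K * δ := by
    refine (Finset.sum_le_sum fun k _ => hVs k).trans ?_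
    rw [Finset.sum_const, Finset.card_univ, Fintype.card_fin, nsmul_eq_mul]
    refine mul_le_mul_of_nonneg_right ?_ hδ0.le
    exact_mod_cast Nat.sub_le K L
  have hsum' : ∑ k, ent μ (W k) ≤ K * δ := by
    refine (Finset.sum_le_sum fun k _ => hWs k).trans ?_
    rw [Finset.sum_const, Finset.card_univ, Fintype.card_fin, nsmul_eq_mul]
    refine mul_le_mul_of_nonneg_right ?_ hδ0.le
    exact_mod_cast Nat.sub_le K L2
  have e5 : H (n + K' + K) = H (n + (K' + K)) := by rw [add_assoc]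
  have hmain' : H (n + (K' + K)) ≤ H n + H K + K * δ + K * δ := by
    rw [← e5]
    linarith
  have h8 : ((K' + K : ℕ) : ℝ) = K' + K := by push_cast; ring
  rw [h8] at hnH
  have h9 : (K' : ℝ) * hh ≤ 1 + 3 * δ * K := by nlinarith
  have h10 : 3 * δ * K ≤ 3 / 8 * (hh * K') := by
    have : 3 * δ * K ≤ 3 * δ * ((κ + 1) * K') := by
      refine mul_le_mul_of_nonneg_left hK'1 (by positivity)
    refine this.trans (le_of_eq ?_)
    rw [hδ]; field_simp
  rw [div_lt_iff₀ hh0] at hK'3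
  linarith

end Pool.Agent.Helper5.PE
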